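import Pool.Agent.RM69.Defs

/-!
# RM69 : Menger sets, and closed locally Menger (for example locally compact) sets are SDM
-/

set_option autoImplicit false

namespace Pool.Agent.RM69

open Set Topology Metric

universe u

section

variable {X : Type u} [TopologicalSpace X]

theorem isMenger_of_isCompact {F : Set X} (h : IsCompact F) : IsMenger F := by
  intro 𝒰 hU hF
  have h1 : ∀ n, ∃ 𝒱 : Set (Set X), 𝒱 ⊆ 𝒰 n ∧ 𝒱.Finite ∧ F ⊆ ⋃₀ 𝒱 := by
    intro n
    obtain ⟨t, ht⟩ := h.elim_finite_subcover (fun U : 𝒰 n => (U : Set X))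
      (fun U => hU n U U.2) (by rw [← sUnion_eq_iUnion]; exact hF n)
    refine ⟨Subtype.val '' (t : Set (𝒰 n)), ?_, t.finite_toSet.image _, ?_⟩
    · rintro _ ⟨U, -, rfl⟩
      exact U.2
    · intro x hx
      obtain ⟨U, hU, hxU⟩ := mem_iUnion₂.1 (ht hx)
      exact ⟨U, ⟨U, hU, rfl⟩, hxU⟩
  choose 𝒱 h2 h3 h4 using h1
  exact ⟨𝒱, fun n => ⟨h2 n, h3 n⟩, (h4 0).trans (subset_iUnion (fun n => ⋃₀ 𝒱 n) 0)⟩

theorem IsMenger.subset {F G : Set X} (h : IsMenger F) (hG : IsClosed G) (hGF : G ⊆ F) :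
    IsMenger G := by
  intro 𝒰 hU hcov
  obtain ⟨𝒱, h1, h2⟩ := h (fun n => insert Gᶜ (𝒰 n)) (by
    intro n U hUn
    rcases hUn with rfl | hUn
    · exact hG.isOpen_compl
    · exact hU n U hUn) (by
    intro n x _
    by_cases hxG : x ∈ G
    · obtain ⟨U, hUn, hxU⟩ := hcov n hxG
      exact ⟨U, Or.inr hUn, hxU⟩
    · exact ⟨Gᶜ, Or.inl rfl, hxG⟩)
  refine ⟨fun n => 𝒱 n ∩ 𝒰 n, fun n => ⟨inter_subset_right, (h1 n).2.subset inter_subset_left⟩, ?_⟩
  intro x hx
  obtain ⟨n, U, hUn, hxU⟩ := mem_iUnion.1 (h2 (hGF hx))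
  rcases (h1 n).1 hUn with rfl | hUn'
  · exact absurd hx hxU
  · exact mem_iUnion.2 ⟨n, U, ⟨hUn, hUn'⟩, hxU⟩

theorem IsMenger.iUnion {ι : Type*} [Countable ι] {F : ι → Set X} (h : ∀ i, IsMenger (F i)) :
    IsMenger (⋃ i, F i) := by
  intro 𝒰 hU hcov
  obtain ⟨g, hg⟩ := exists_injective_nat ι
  -- the covers used for the set `i`
  have h1 : ∀ i, ∃ 𝒱 : ℕ → Set (Set X),
      (∀ j, 𝒱 j ⊆ 𝒰 (Nat.pair (g i) j) ∧ (𝒱 j).Finite) ∧ F i ⊆ ⋃ j, ⋃₀ 𝒱 j := by
    intro i
    exact h i (fun j => 𝒰 (Nat.pair (g i) j)) (fun j U hUj => hU _ U hUj)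
      (fun j => (subset_iUnion F i).trans (hcov _))
  choose 𝒱 h2 h3 using h1
  refine ⟨fun n => {U | ∃ i, g i = n.unpair.1 ∧ U ∈ 𝒱 i n.unpair.2}, fun n => ⟨?_, ?_⟩, ?_⟩
  · rintro U ⟨i, hi, hUi⟩
    have := (h2 i n.unpair.2).1 hUi
    rw [hi, Nat.pair_unpair] at this
    exact this
  · by_cases hn : ∃ i, g i = n.unpair.1
    · obtain ⟨i, hi⟩ := hn
      refine (h2 i n.unpair.2).2.subset ?_
      rintro U ⟨i', hi', hUi'⟩
      rw [hg (hi'.trans hi.symm)] at hUi'
      exact hUi'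
    · refine finite_empty.subset ?_
      rintro U ⟨i, hi, -⟩
      exact absurd ⟨i, hi⟩ hn
  · intro x hx
    obtain ⟨i, hxi⟩ := mem_iUnion.1 hx
    obtain ⟨j, U, hUj, hxU⟩ := mem_iUnion.1 (h3 i hxi)
    refine mem_iUnion.2 ⟨Nat.pair (g i) j, U, ⟨i, ?_, ?_⟩, hxU⟩
    · rw [Nat.unpair_pair]
    · rw [Nat.unpair_pair]
      exact hUj

end

variable {T : Type u} [MetricSpace T]

/-- a uniformly separated family is discrete -/
theorem isDiscreteFamily_of_sep {𝒟 : Set (Set T)} {δ : ℝ} (hδ : 0 < δ)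
    (h : ∀ A ∈ 𝒟, ∀ B ∈ 𝒟, A ≠ B → ∀ x ∈ A, ∀ y ∈ B, δ ≤ dist x y) : IsDiscreteFamily 𝒟 := by
  intro x
  refine ⟨ball x (δ / 2), isOpen_ball, mem_ball_self (by positivity), ?_⟩
  rintro A ⟨hA, y, hyA, hy⟩ B ⟨hB, z, hzB, hz⟩
  by_contra hne
  have h1 := h A hA B hB hne y hyA z hzB
  rw [mem_ball] at hy hz
  have h2 : dist y z ≤ dist y x + dist z x := by
    rw [dist_comm z x]
    exact dist_triangle _ _ _
  linarith

omit [MetricSpace T] in
/-- closure of a countable set under a countable-valued operation -/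
theorem exists_countable_closed (f : T → Set T) (hf : ∀ z, (f z).Countable) (x : T) :
    ∃ D : Set T, D.Countable ∧ x ∈ D ∧ ∀ z ∈ D, f z ⊆ D := by
  let H : ℕ → Set T := fun n => Nat.rec {x} (fun _ B => ⋃ z ∈ B, f z) n
  have hH0 : H 0 = {x} := rfl
  have hHs : ∀ n, H (n + 1) = ⋃ z ∈ H n, f z := fun n => rfl
  have hc : ∀ n, (H n).Countable := by
    intro n
    induction n with
    | zero => exact countable_singleton x
    | succ n ih =>
      rw [hHs]
      exact ih.biUnion fun z _ => hf z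
  refine ⟨⋃ n, H n, countable_iUnion hc, mem_iUnion.2 ⟨0, by rw [hH0]; exact rfl⟩, ?_⟩
  intro z hz y hy
  obtain ⟨n, hn⟩ := mem_iUnion.1 hz
  refine mem_iUnion.2 ⟨n + 1, ?_⟩
  rw [hHs]
  exact mem_iUnion₂.2 ⟨z, hn, hy⟩

/-- every point of `F` has a ball whose trace on `F` is Menger -/
def LocMenger (F : Set T) : Prop := ∀ x ∈ F, ∃ r : ℝ, 0 < r ∧ IsMenger (F ∩ closedBall x r)

/-- **closed locally Menger sets are sigma-discretely Menger** -/
theorem sdm_of_locMenger {F : Set T} (hF : IsClosed F) (h : LocMenger F) : SDM F := by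
  classical
  -- the points with a Menger ball of radius `1/(n+1)`
  let Fn : ℕ → Set T := fun n => {x | x ∈ F ∧ IsMenger (F ∩ closedBall x (1 / ((n : ℝ) + 1)))}
  let ε : ℕ → ℝ := fun n => 1 / (4 * ((n : ℝ) + 1))
  have hε : ∀ n, 0 < ε n := fun n => by positivity
  have hε4 : ∀ n, 4 * ε n = 1 / ((n : ℝ) + 1) := by
    intro n
    simp only [ε]
    field_simp
  let r : ℕ → T → T → Prop := fun n a b => a ∈ Fn n ∧ b ∈ Fn n ∧ dist a b < ε n
  have hsymm : ∀ n a b, r n a b → r n b a := fun n a b hab => ⟨hab.2.1, hab.1, by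
    rw [dist_comm]; exact hab.2.2⟩
  have hsymm' : ∀ n a b, Relation.ReflTransGen (r n) a b → Relation.ReflTransGen (r n) b a := by
    intro n a b hab
    induction hab with
    | refl => exact Relation.ReflTransGen.refl
    | tail _ hbc ih => exact Relation.ReflTransGen.head (hsymm n _ _ hbc) ih
  let C : ℕ → T → Set T := fun n x => {y | Relation.ReflTransGen (r n) x y}
  have hCF : ∀ n, ∀ x ∈ Fn n, C n x ⊆ Fn n := by
    intro n x hx y hy
    rcases Relation.ReflTransGen.cases_tail hy with h1 | ⟨z, -, h1⟩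
    · rw [h1]
      exact hx
    · exact h1.2.1
  -- close classes are equal
  have hCeq : ∀ n, ∀ x ∈ Fn n, ∀ y ∈ Fn n, ∀ a ∈ C n x, ∀ b ∈ C n y, dist a b < ε n →
      C n x = C n y := by
    intro n x hx y hy a ha b hb hab
    have h1 : Relation.ReflTransGen (r n) x y :=
      (ha.tail ⟨hCF n x hx ha, hCF n y hy hb, hab⟩).trans
        (hsymm' n _ _ hb)
    have h2 : Relation.ReflTransGen (r n) y x := hsymm' n _ _ h1
    ext z
    exact ⟨fun hz => h2.trans hz, fun hz => h1.trans hz⟩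
  -- classes are covered by countably many Menger balls
  have hcount : ∀ n, ∀ x ∈ Fn n, ∃ D : Set T, D.Countable ∧ D ⊆ Fn n ∧
      ∀ y ∈ C n x, ∃ z ∈ D, dist y z < 2 * ε n := by
    intro n x hx
    -- dense subsets of the balls
    have hden : ∀ z : T, ∃ Q : Set T, Q.Countable ∧
        (z ∈ Fn n → F ∩ closedBall z (1 / ((n : ℝ) + 1)) ⊆ closure Q) := by
      intro z
      by_cases hz : z ∈ Fn n
      · obtain ⟨Q, h1, -, h3⟩ := hz.2.exists_dense
        exact ⟨Q, h1, fun _ => h3⟩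
      · exact ⟨∅, countable_empty, fun h' => absurd h' hz⟩
    choose Q hQ1 hQ2 using hden
    have hs : ∀ q : T, ∃ s ∈ Fn n, (Fn n ∩ ball q (ε n)).Nonempty → dist s q < ε n := by
      intro q
      by_cases hq : (Fn n ∩ ball q (ε n)).Nonempty
      · obtain ⟨s, hs1, hs2⟩ := hq
        exact ⟨s, hs1, fun _ => hs2⟩
      · exact ⟨x, hx, fun h' => absurd h' hq⟩
    choose s hs1 hs2 using hs
    obtain ⟨D, hD1, hD2, hD3⟩ := exists_countable_closed (fun z => s '' Q z)
      (fun z => (hQ1 z).image s) x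
    refine ⟨D ∩ Fn n, hD1.mono inter_subset_left, inter_subset_right, ?_⟩
    intro y hy
    induction hy with
    | refl => exact ⟨x, ⟨hD2, hx⟩, by rw [dist_self]; have := hε n; linarith⟩
    | @tail y y' _ hyy ih =>
      obtain ⟨z, ⟨hzD, hzF⟩, hyz⟩ := ih
      have h1 : dist y' z ≤ dist y' y + dist y z := dist_triangle _ _ _
      have h2 : dist y' y < ε n := by rw [dist_comm]; exact hyy.2.2
      have h3 : y' ∈ F ∩ closedBall z (1 / ((n : ℝ) + 1)) := by
        refine ⟨hyy.2.1.1, ?_⟩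
        rw [mem_closedBall, ← hε4]
        have := hε n
        linarith
      obtain ⟨q, hq, hqd⟩ := Metric.mem_closure_iff.1 (hQ2 z hzF h3) (ε n) (hε n)
      have h4 := hs2 q ⟨y', hyy.2.1, hqd⟩
      refine ⟨s q, ⟨hD3 z hzD ⟨q, hq, rfl⟩, hs1 q⟩, ?_⟩
      have h5 : dist y' (s q) ≤ dist y' q + dist (s q) q := by
        rw [dist_comm (s q) q]
        exact dist_triangle _ _ _
      linarith
  refine ⟨fun n => (fun x => closure (C n x)) '' Fn n, ?_, fun n => ⟨?_, ?_⟩⟩
  · apply Subset.antisymm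
    · intro x hx
      obtain ⟨ρ, hρ, hM⟩ := h x hx
      obtain ⟨n, hn⟩ := exists_nat_one_div_lt hρ
      refine mem_iUnion.2 ⟨n, closure (C n x), ⟨x, ⟨hx, ?_⟩, rfl⟩,
        subset_closure Relation.ReflTransGen.refl⟩
      exact hM.subset (hF.inter isClosed_closedBall)
        (inter_subset_inter_right F (closedBall_subset_closedBall hn.le))
    · refine iUnion_subset fun n => ?_
      rintro y ⟨_, ⟨x, hx, rfl⟩, hy⟩
      exact closure_minimal ((hCF n x hx).trans fun z hz => hz.1) hF hy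
  · refine isDiscreteFamily_of_sep (δ := ε n) (hε n) ?_
    rintro _ ⟨x, hx, rfl⟩ _ ⟨y, hy, rfl⟩ hne a ha b hb
    by_contra hlt
    rw [not_le] at hlt
    set τ := (ε n - dist a b) / 2 with hτ
    have hτ0 : 0 < τ := by
      rw [hτ]
      linarith
    obtain ⟨a', ha', h1⟩ := Metric.mem_closure_iff.1 ha τ hτ0
    obtain ⟨b', hb', h2⟩ := Metric.mem_closure_iff.1 hb τ hτ0
    have h3 : dist a' b' ≤ dist a a' + dist a b + dist b b' := by
      calc dist a' b' ≤ dist a' a + dist a b' := dist_triangle _ _ _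
        _ ≤ dist a' a + (dist a b + dist b b') := by
            have := dist_triangle a b b'
            linarith
        _ = _ := by rw [dist_comm a' a]; ring
    have h4 : dist a' b' < ε n := by
      have h5 : dist a a' + dist b b' < τ + τ := add_lt_add h1 h2
      have h6 : τ + τ = ε n - dist a b := by rw [hτ]; ring
      linarith
    exact hne (by
      show closure (C n x) = closure (C n y)
      rw [hCeq n x hx y hy a' ha' b' hb' h4])
  · rintro _ ⟨x, hx, rfl⟩
    refine ⟨isClosed_closure, ?_⟩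
    obtain ⟨D, hD1, hD2, hD3⟩ := hcount n x hx
    have hDc : Countable D := hD1
    have h1 : closure (C n x) =
        ⋃ z : D, closure (C n x) ∩ closedBall (z : T) (1 / ((n : ℝ) + 1)) := by
      rw [← inter_iUnion]
      refine (inter_eq_left.2 ?_).symm
      intro y hy
      obtain ⟨y', hy', hd⟩ := Metric.mem_closure_iff.1 hy (ε n) (hε n)
      obtain ⟨z, hz, hd'⟩ := hD3 y' hy'
      refine mem_iUnion.2 ⟨⟨z, hz⟩, ?_⟩
      rw [mem_closedBall, ← hε4]
      have h2 : dist y z ≤ dist y y' + dist y' z := dist_triangle _ _ _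
      have := hε n
      show dist y z ≤ 4 * ε n
      linarith
    show IsMenger (closure (C n x))
    rw [h1]
    refine IsMenger.iUnion fun z => ?_
    refine (hD2 z.2).2.subset (isClosed_closure.inter isClosed_closedBall) ?_
    refine inter_subset_inter_left _ ?_
    exact closure_minimal ((hCF n x hx).trans fun z hz => hz.1) hF

/-- closed locally compact sets are sigma-discretely Menger -/
theorem sdm_of_locallyCompact {F : Set T} (hF : IsClosed F) [LocallyCompactSpace F] : SDM F := by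
  refine sdm_of_locMenger hF fun x hx => ?_
  obtain ⟨K, hK, hKx⟩ := exists_compact_mem_nhds (⟨x, hx⟩ : F)
  obtain ⟨r, hr, hrK⟩ := Metric.nhds_basis_closedBall.mem_iff.1 hKx
  refine ⟨r, hr, ?_⟩
  have h1 : IsCompact (Subtype.val '' K : Set T) := hK.image continuous_subtype_val
  refine (isMenger_of_isCompact h1).subset (hF.inter isClosed_closedBall) ?_
  rintro y ⟨hyF, hyr⟩
  exact ⟨⟨y, hyF⟩, hrK hyr, rfl⟩

end Pool.Agent.RM69
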