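import Mathlib

/-!
# RM69 : metric spaces with a base of sets with sigma-discretely Menger boundaries
(MP_0ac51f_gt): definitions
-/

set_option autoImplicit false

namespace Pool.Agent.RM69

open Set Topology Metric

universe u

section

variable {X : Type u} [TopologicalSpace X]

/-- `ind Y ≤ 0`. -/
def IndZero (Y : Set X) : Prop :=
  ∀ x ∈ Y, ∀ U : Set X, IsOpen U → x ∈ U →
    ∃ V : Set X, IsOpen V ∧ x ∈ V ∧ V ∩ Y ⊆ U ∧ closure (V ∩ Y) ∩ Y ⊆ V

/-- Countable union of subspaces with `ind ≤ 0`. -/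
def SigmaZero (S : Set X) : Prop :=
  ∃ Y : ℕ → Set X, (⋃ i, Y i) = S ∧ ∀ i, IndZero (Y i)

/-- A Menger set: for every sequence of open covers one can select finite subfamilies which
together cover. -/
def IsMenger (F : Set X) : Prop :=
  ∀ 𝒰 : ℕ → Set (Set X), (∀ n, ∀ U ∈ 𝒰 n, IsOpen U) → (∀ n, F ⊆ ⋃₀ 𝒰 n) →
    ∃ 𝒱 : ℕ → Set (Set X), (∀ n, 𝒱 n ⊆ 𝒰 n ∧ (𝒱 n).Finite) ∧ F ⊆ ⋃ n, ⋃₀ 𝒱 n

/-- A discrete family: every point has a neighbourhood meeting at most one member. -/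
def IsDiscreteFamily (𝒟 : Set (Set X)) : Prop :=
  ∀ x, ∃ O, IsOpen O ∧ x ∈ O ∧ {D ∈ 𝒟 | (D ∩ O).Nonempty}.Subsingleton

/-- A sigma-discretely Menger set: a countable union of unions of discrete families of closed
Menger sets. -/
def SDM (F : Set X) : Prop :=
  ∃ 𝒟 : ℕ → Set (Set X), F = (⋃ k, ⋃₀ 𝒟 k) ∧ ∀ k, IsDiscreteFamily (𝒟 k) ∧
    ∀ D ∈ 𝒟 k, IsClosed D ∧ IsMenger D

variable (X) in
/-- Every point has arbitrarily small open neighbourhoods with sigma-discretely Menger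
boundaries. -/
def RimMenger : Prop :=
  ∀ x : X, ∀ U : Set X, IsOpen U → x ∈ U → ∃ V, IsOpen V ∧ x ∈ V ∧ V ⊆ U ∧ SDM (frontier V)

theorem IndZero.mono {Y Z : Set X} (h : IndZero Y) (hZ : Z ⊆ Y) : IndZero Z := by
  intro x hx U hU hxU
  obtain ⟨V, hV, hxV, h1, h2⟩ := h x (hZ hx) U hU hxU
  refine ⟨V, hV, hxV, fun y hy => h1 ⟨hy.1, hZ hy.2⟩, ?_⟩
  rintro y ⟨hy1, hy2⟩
  exact h2 ⟨closure_mono (inter_subset_inter_right V hZ) hy1, hZ hy2⟩

theorem SigmaZero.mono {S T : Set X} (h : SigmaZero S) (hT : T ⊆ S) : SigmaZero T := by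
  obtain ⟨Y, hY, h0⟩ := h
  refine ⟨fun i => Y i ∩ T, ?_, fun i => (h0 i).mono inter_subset_left⟩
  rw [← iUnion_inter, hY]
  exact inter_eq_right.2 hT

theorem SigmaZero.of_indZero {S : Set X} (h : IndZero S) : SigmaZero S :=
  ⟨fun _ => S, iUnion_const S, fun _ => h⟩

theorem indZero_empty : IndZero (∅ : Set X) := fun x hx => absurd hx (notMem_empty x)

theorem sigmaZero_empty : SigmaZero (∅ : Set X) := SigmaZero.of_indZero indZero_empty

theorem SigmaZero.iUnion {ι : Type*} [Countable ι] {S : ι → Set X} (h : ∀ i, SigmaZero (S i)) :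
    SigmaZero (⋃ i, S i) := by
  choose Y hY h0 using h
  rcases isEmpty_or_nonempty ι with hι | hι
  · rw [iUnion_of_empty]
    exact SigmaZero.of_indZero indZero_empty
  · obtain ⟨e, he⟩ := exists_surjective_nat (ι × ℕ)
    refine ⟨fun n => Y (e n).1 (e n).2, ?_, fun n => h0 _ _⟩
    ext x
    simp only [mem_iUnion]
    constructor
    · rintro ⟨n, hn⟩
      exact ⟨(e n).1, by rw [← hY]; exact mem_iUnion.2 ⟨_, hn⟩⟩
    · rintro ⟨i, hi⟩
      rw [← hY] at hi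
      obtain ⟨j, hj⟩ := mem_iUnion.1 hi
      obtain ⟨n, hn⟩ := he (i, j)
      exact ⟨n, by rw [hn]; exact hj⟩

theorem SigmaZero.union {S T : Set X} (hS : SigmaZero S) (hT : SigmaZero T) :
    SigmaZero (S ∪ T) := by
  rw [union_eq_iUnion]
  refine SigmaZero.iUnion (fun b => ?_)
  cases b
  · exact hT
  · exact hS

theorem sdm_empty : SDM (∅ : Set X) := by
  refine ⟨fun _ => ∅, by simp, fun k => ⟨fun x => ⟨univ, isOpen_univ, mem_univ x, ?_⟩, ?_⟩⟩
  · intro D hD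
    exact absurd hD.1 (notMem_empty D)
  · intro D hD
    exact absurd hD (notMem_empty D)

end

/-- Menger sets of metric spaces are separable. -/
theorem IsMenger.exists_dense {X : Type u} [PseudoMetricSpace X] {F : Set X} (h : IsMenger F) :
    ∃ Q : Set X, Q.Countable ∧ Q ⊆ F ∧ F ⊆ closure Q := by
  rcases F.eq_empty_or_nonempty with hF | ⟨x₀, hx₀⟩
  · exact ⟨∅, countable_empty, empty_subset _, by rw [hF]; exact empty_subset _⟩
  have hX : Nonempty X := ⟨x₀⟩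
  -- for every `n` a countable subset `Q n` of `F` which is `1/(n+1)`-dense
  have step : ∀ n : ℕ, ∃ Q : Set X, Q.Countable ∧ Q ⊆ F ∧
      ∀ x ∈ F, ∃ q ∈ Q, dist x q < 1 / ((n : ℝ) + 1) := by
    intro n
    have hn : (0 : ℝ) < 1 / ((n : ℝ) + 1) := by positivity
    obtain ⟨𝒱, h1, h2⟩ := h (fun _ => (fun q => ball q (1 / ((n : ℝ) + 1))) '' F)
      (by rintro _ _ ⟨q, -, rfl⟩; exact isOpen_ball)
      (fun _ x hx => ⟨_, ⟨x, hx, rfl⟩, mem_ball_self hn⟩)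
    have h3 : ∀ k, ∀ U ∈ 𝒱 k, ∃ q ∈ F, ball q (1 / ((n : ℝ) + 1)) = U := fun k U hU => (h1 k).1 hU
    choose! c hc using h3
    refine ⟨⋃ k, (c k) '' (𝒱 k), countable_iUnion fun k => ((h1 k).2.image _).countable, ?_, ?_⟩
    · rintro x hx
      obtain ⟨k, U, hU, rfl⟩ := mem_iUnion.1 hx
      exact (hc k U hU).1
    · intro x hx
      obtain ⟨k, U, hU, hxU⟩ := mem_iUnion.1 (h2 hx)
      refine ⟨c k U, mem_iUnion.2 ⟨k, U, hU, rfl⟩, ?_⟩
      rw [← (hc k U hU).2] at hxU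
      exact hxU
  choose Q hQ1 hQ2 hQ3 using step
  refine ⟨⋃ n, Q n, countable_iUnion hQ1, iUnion_subset hQ2, ?_⟩
  intro x hx
  rw [Metric.mem_closure_iff]
  intro ε hε
  obtain ⟨n, hn⟩ := exists_nat_one_div_lt hε
  obtain ⟨q, hq, hd⟩ := hQ3 n x hx
  exact ⟨q, mem_iUnion.2 ⟨n, hq⟩, hd.trans hn⟩

end Pool.Agent.RM69
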