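import Pool.Agent.RM69.Defs

/-!
# RM69 : the base data and the hull
-/

set_option autoImplicit false

namespace Pool.Agent.RM69

open Set Topology Metric

universe u

/-- base sets `W c m n` indexed by centres, pieces of their frontiers and countable dense subsets of
the pieces -/
structure Data (T : Type u) [MetricSpace T] where
  W : T → ℕ → ℕ → Set T
  D : T → ℕ → ℕ → ℕ → Set (Set T)
  Q : T → T → ℕ × ℕ × ℕ × ℕ → Set T
  W_open : ∀ c m n, IsOpen (W c m n)
  base : ∀ x : T, ∀ n : ℕ, ∃ m : ℕ, ∀ c, dist c x < 1 / ((m : ℝ) + 1) →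
    x ∈ W c m n ∧ W c m n ⊆ ball x (2 / ((n : ℝ) + 1))
  fr : ∀ c m n, frontier (W c m n) = ⋃ k, ⋃₀ D c m n k
  disc : ∀ c m n k, IsDiscreteFamily (D c m n k)
  menger : ∀ c m n k, ∀ A ∈ D c m n k, IsMenger A
  Q_count : ∀ c p t, (Q c p t).Countable
  Q_cover : ∀ c m n k, ∀ A ∈ D c m n k, ∀ x ∈ A, ∃ j : ℕ, ∀ p, dist p x < 1 / ((j : ℝ) + 1) →
    A ⊆ closure (Q c p (m, n, k, j))

section

variable {T : Type u} [MetricSpace T]

/-- there is a suitable neighbourhood of the ball -/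
def Feas (c : T) (m n : ℕ) (V : Set T) : Prop :=
  IsOpen V ∧ ball c (1 / ((m : ℝ) + 1)) ⊆ V ∧ V ⊆ ball c (1 / ((n : ℝ) + 1)) ∧ SDM (frontier V)

theorem exists_feas (h : RimMenger T) (x : T) (n : ℕ) : ∃ m : ℕ, m ≥ n ∧
    ∀ c, dist c x < 1 / ((m : ℝ) + 1) → ∃ V, Feas c m n V := by
  have hn : (0 : ℝ) < 1 / (2 * ((n : ℝ) + 1)) := by positivity
  obtain ⟨V, hV, hxV, hVU, hfr⟩ := h x (ball x (1 / (2 * ((n : ℝ) + 1)))) isOpen_ball
    (mem_ball_self hn)
  obtain ⟨δ, hδ, hδV⟩ := Metric.isOpen_iff.1 hV x hxV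
  obtain ⟨m, hm⟩ := exists_nat_one_div_lt (show (0 : ℝ) < min (δ / 2) (1 / (2 * ((n : ℝ) + 1))) by
    positivity)
  have hm1 : 1 / ((m : ℝ) + 1) < δ / 2 := hm.trans_le (min_le_left _ _)
  have hm2 : 1 / ((m : ℝ) + 1) < 1 / (2 * ((n : ℝ) + 1)) := hm.trans_le (min_le_right _ _)
  refine ⟨m, ?_, fun c hc => ⟨V, hV, ?_, ?_, hfr⟩⟩
  · have h1 : 2 * ((n : ℝ) + 1) < (m : ℝ) + 1 := by
      rw [one_div_lt_one_div (by positivity) (by positivity)] at hm2
      exact hm2
    have h2 : (n : ℝ) ≤ m := by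
      have : (0 : ℝ) ≤ n := Nat.cast_nonneg n
      linarith
    exact_mod_cast h2
  · intro y hy
    apply hδV
    rw [mem_ball] at hy ⊢
    calc dist y x ≤ dist y c + dist c x := dist_triangle _ _ _
      _ < 1 / ((m : ℝ) + 1) + 1 / ((m : ℝ) + 1) := add_lt_add hy hc
      _ ≤ δ := by linarith
  · intro y hy
    have h1 := hVU hy
    rw [mem_ball] at h1 ⊢
    have h3 : 1 / ((n : ℝ) + 1) = 1 / (2 * ((n : ℝ) + 1)) + 1 / (2 * ((n : ℝ) + 1)) := by
      field_simp
      norm_num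
    calc dist y c ≤ dist y x + dist x c := dist_triangle _ _ _
      _ < 1 / (2 * ((n : ℝ) + 1)) + 1 / (2 * ((n : ℝ) + 1)) := by
          rw [dist_comm x c]
          exact add_lt_add h1 (hc.trans hm2)
      _ = _ := h3.symm

theorem exists_data (h : RimMenger T) : Nonempty (Data T) := by
  classical
  -- the sets
  have hW : ∀ (c : T) (m n : ℕ), ∃ V : Set T, IsOpen V ∧ SDM (frontier V) ∧
      ((∃ V', Feas c m n V') → Feas c m n V) := by
    intro c m n
    by_cases hf : ∃ V', Feas c m n V'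
    · obtain ⟨V, hV⟩ := hf
      exact ⟨V, hV.1, hV.2.2.2, fun _ => hV⟩
    · exact ⟨∅, isOpen_empty, by rw [frontier_empty]; exact sdm_empty, fun h' => absurd h' hf⟩
  choose W hWo hWs hWf using hW
  choose D hD1 hD2 using hWs
  -- dense subsets
  have hden : ∀ A : Set T, ∃ Q : Set T, Q.Countable ∧ (IsMenger A → A ⊆ closure Q) := by
    intro A
    by_cases hA : IsMenger A
    · obtain ⟨Q, h1, -, h3⟩ := hA.exists_dense
      exact ⟨Q, h1, fun _ => h3⟩
    · exact ⟨∅, countable_empty, fun h' => absurd h' hA⟩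
  choose den hden1 hden2 using hden
  -- the pieces
  have hQ : ∀ (c p : T) (t : ℕ × ℕ × ℕ × ℕ), ∃ Q : Set T, Q.Countable ∧
      ∀ A, {B ∈ D c t.1 t.2.1 t.2.2.1 | (B ∩ ball p (1 / ((t.2.2.2 : ℝ) + 1))).Nonempty} = {A} →
        Q = den A := by
    intro c p t
    by_cases hA : ∃ A, {B ∈ D c t.1 t.2.1 t.2.2.1 |
        (B ∩ ball p (1 / ((t.2.2.2 : ℝ) + 1))).Nonempty} = {A}
    · obtain ⟨A, hA⟩ := hA
      refine ⟨den A, hden1 A, fun B hB => ?_⟩
      rw [hA] at hB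
      rw [singleton_injective hB]
    · exact ⟨∅, countable_empty, fun A h' => absurd ⟨A, h'⟩ hA⟩
  choose Q hQ1 hQ2 using hQ
  refine ⟨⟨W, D, Q, hWo, ?_, hD1, fun c m n k => (hD2 c m n k).1,
    fun c m n k A hA => ((hD2 c m n k).2 A hA).2, hQ1, ?_⟩⟩
  · intro x n
    obtain ⟨m, hmn, hm⟩ := exists_feas h x n
    refine ⟨m, fun c hc => ?_⟩
    obtain ⟨h1, h2, h3, h4⟩ := hWf c m n (hm c hc)
    refine ⟨h2 (by rw [mem_ball, dist_comm]; exact hc), fun y hy => ?_⟩
    have h5 := h3 hy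
    rw [mem_ball] at h5 ⊢
    have h6 : 1 / ((m : ℝ) + 1) ≤ 1 / ((n : ℝ) + 1) := by
      apply one_div_le_one_div_of_le (by positivity)
      have : (n : ℝ) ≤ m := by exact_mod_cast hmn
      linarith
    calc dist y x ≤ dist y c + dist c x := dist_triangle _ _ _
      _ < 1 / ((n : ℝ) + 1) + 1 / ((m : ℝ) + 1) := add_lt_add h5 hc
      _ ≤ 1 / ((n : ℝ) + 1) + 1 / ((n : ℝ) + 1) := by linarith
      _ = 2 / ((n : ℝ) + 1) := by ring
  · intro c m n k A hA x hxA
    obtain ⟨hdisc, hcm⟩ := hD2 c m n k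
    obtain ⟨O, hO, hxO, hsub⟩ := hdisc x
    obtain ⟨δ, hδ, hδO⟩ := Metric.isOpen_iff.1 hO x hxO
    obtain ⟨j, hj⟩ := exists_nat_one_div_lt (half_pos hδ)
    refine ⟨j, fun p hp => ?_⟩
    have hset : {B ∈ D c m n k | (B ∩ ball p (1 / ((j : ℝ) + 1))).Nonempty} = {A} := by
      have hsubset : {B ∈ D c m n k | (B ∩ ball p (1 / ((j : ℝ) + 1))).Nonempty} ⊆
          {B ∈ D c m n k | (B ∩ O).Nonempty} := by
        rintro B ⟨hB, y, hyB, hy⟩
        refine ⟨hB, y, hyB, hδO ?_⟩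
        rw [mem_ball] at hy ⊢
        calc dist y x ≤ dist y p + dist p x := dist_triangle _ _ _
          _ < 1 / ((j : ℝ) + 1) + 1 / ((j : ℝ) + 1) := add_lt_add hy hp
          _ ≤ δ := by linarith
      have hAmem : A ∈ {B ∈ D c m n k | (B ∩ ball p (1 / ((j : ℝ) + 1))).Nonempty} :=
        ⟨hA, x, hxA, by rw [mem_ball, dist_comm]; exact hp⟩
      exact (hsub.anti hsubset).eq_singleton_of_mem hAmem
    have h1 := hQ2 c p (m, n, k, j) A hset
    rw [h1]
    exact hden2 A (hcm A hA).2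

end

namespace Data

variable {T : Type u} [MetricSpace T] (d : Data T)

/-- the hull of a set: closed under taking the dense subsets of pieces -/
inductive HullP (A : Set T) : T → Prop
  | base {x : T} (hx : x ∈ A) : HullP A x
  | step {c p q : T} (t : ℕ × ℕ × ℕ × ℕ) (hc : HullP A c) (hp : HullP A p)
      (hq : q ∈ d.Q c p t) : HullP A q

/-- the hull -/
def Hull (A : Set T) : Set T := {x | d.HullP A x}

theorem subset_hull (A : Set T) : A ⊆ d.Hull A := fun _ hx => HullP.base hx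

theorem Q_subset_hull {A : Set T} {c p : T} (hc : c ∈ d.Hull A) (hp : p ∈ d.Hull A)
    (t : ℕ × ℕ × ℕ × ℕ) : d.Q c p t ⊆ d.Hull A := fun _ hq => HullP.step t hc hp hq

theorem hull_mono {A B : Set T} (h : A ⊆ B) : d.Hull A ⊆ d.Hull B := by
  intro x hx
  induction hx with
  | base hx => exact HullP.base (h hx)
  | step t _ _ hq ihc ihp => exact HullP.step t ihc ihp hq

theorem hull_subset {A B : Set T} (h : A ⊆ B)
    (hB : ∀ c ∈ B, ∀ p ∈ B, ∀ t, d.Q c p t ⊆ B) : d.Hull A ⊆ B := by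
  intro x hx
  induction hx with
  | base hx => exact h hx
  | step t _ _ hq ihc ihp => exact hB _ ihc _ ihp t hq

theorem hull_countable {A : Set T} (hA : A.Countable) : (d.Hull A).Countable := by
  let H : ℕ → Set T := fun n => Nat.rec A (fun _ B => B ∪ ⋃ c ∈ B, ⋃ p ∈ B, ⋃ t, d.Q c p t) n
  have hH0 : H 0 = A := rfl
  have hHs : ∀ n, H (n + 1) = H n ∪ ⋃ c ∈ H n, ⋃ p ∈ H n, ⋃ t, d.Q c p t := fun n => rfl
  have hc : ∀ n, (H n).Countable := by
    intro n
    induction n with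
    | zero => exact hA
    | succ n ih =>
      rw [hHs]
      exact ih.union (ih.biUnion fun c _ => ih.biUnion fun p _ =>
        countable_iUnion fun t => d.Q_count c p t)
  have hmono : Monotone H := monotone_nat_of_le_succ fun n => by
    rw [hHs]
    exact subset_union_left
  refine (countable_iUnion hc).mono (d.hull_subset (B := ⋃ n, H n) ?_ ?_)
  · rw [← hH0]
    exact subset_iUnion H 0
  · intro c hc p hp t q hq
    obtain ⟨i, hi⟩ := mem_iUnion.1 hc
    obtain ⟨j, hj⟩ := mem_iUnion.1 hp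
    refine mem_iUnion.2 ⟨max i j + 1, ?_⟩
    rw [hHs]
    refine Or.inr (mem_iUnion₂.2 ⟨c, hmono (le_max_left i j) hi, mem_iUnion₂.2
      ⟨p, hmono (le_max_right i j) hj, mem_iUnion.2 ⟨t, hq⟩⟩⟩)

/-- the hull is finitary -/
theorem hull_finitary {A : Set T} {x : T} (hx : x ∈ d.Hull A) :
    ∃ F : Set T, F.Finite ∧ F ⊆ A ∧ x ∈ d.Hull F := by
  induction hx with
  | @base x hx => exact ⟨{x}, finite_singleton x, singleton_subset_iff.2 hx,
      HullP.base (mem_singleton x)⟩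
  | step t _ _ hq ihc ihp =>
    obtain ⟨F, h1, h2, h3⟩ := ihc
    obtain ⟨G, h4, h5, h6⟩ := ihp
    exact ⟨F ∪ G, h1.union h4, union_subset h2 h5, HullP.step t (d.hull_mono subset_union_left h3)
      (d.hull_mono subset_union_right h6) hq⟩

theorem hull_empty : d.Hull (∅ : Set T) = ∅ := by
  refine subset_empty_iff.1 (d.hull_subset subset_rfl ?_)
  intro c hc
  exact absurd hc (notMem_empty c)

end Data

end Pool.Agent.RM69
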