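import Pool.Agent.RM69.Select

/-!
# RM69 : the inner induction along a well-ordered increasing chain of hulls
-/

set_option autoImplicit false

namespace Pool.Agent.RM69

open Set Topology Metric

universe u v

/-- a union of uniformly separated sets with `ind ≤ 0` has `ind ≤ 0` -/
theorem indZero_separated {T : Type u} [MetricSpace T] {ι : Type v} {P : ι → Set T} {δ : ℝ}
    (hδ : 0 < δ) (hP : ∀ i, IndZero (P i))
    (hsep : ∀ i j, i ≠ j → ∀ x ∈ P i, ∀ y ∈ P j, δ ≤ dist x y) : IndZero (⋃ i, P i) := by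
  intro x hx U hU hxU
  obtain ⟨i, hxi⟩ := mem_iUnion.1 hx
  have hδ2 : 0 < δ / 2 := by positivity
  obtain ⟨V, hV, hxV, h1, h2⟩ := hP i x hxi (U ∩ ball x (δ / 2)) (hU.inter isOpen_ball)
    ⟨hxU, mem_ball_self hδ2⟩
  have key : ∀ y ∈ ⋃ i, P i, dist y x < δ → y ∈ P i := by
    intro y hy hd
    obtain ⟨j, hyj⟩ := mem_iUnion.1 hy
    by_cases hij : j = i
    · rw [← hij]
      exact hyj
    · exact absurd (hsep j i hij y hyj x hxi) (not_le.2 hd)
  refine ⟨V ∩ ball x (δ / 2), hV.inter isOpen_ball, ⟨hxV, mem_ball_self hδ2⟩, ?_, ?_⟩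
  · rintro y ⟨⟨hyV, hyb⟩, hyP⟩
    rw [mem_ball] at hyb
    exact (h1 ⟨hyV, key y hyP (by linarith)⟩).1
  · rintro y ⟨hyc, hyP⟩
    have hyb : y ∈ closedBall x (δ / 2) := by
      apply closure_ball_subset_closedBall
      exact closure_mono (fun z hz => hz.1.2) hyc
    rw [mem_closedBall] at hyb
    have hyPi : y ∈ P i := key y hyP (by linarith)
    have hyc' : y ∈ closure (V ∩ P i) := by
      refine closure_mono ?_ hyc
      rintro z ⟨⟨hzV, hzb⟩, hzP⟩
      rw [mem_ball] at hzb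
      exact ⟨hzV, key z hzP (by linarith)⟩
    have hyV := h2 ⟨hyc', hyPi⟩
    exact ⟨hyV, (h1 ⟨hyV, hyPi⟩).2⟩

namespace Data

variable {T : Type u} [MetricSpace T] (d : Data T)
variable {I : Type v} [LinearOrder I] [WellFoundedLT I] (a : I → T)

/-- hull of an initial segment -/
def Hs (i : I) : Set T := d.Hull (a '' Iic i)

/-- its closure -/
def C (i : I) : Set T := closure (d.Hs a i)

/-- union of the earlier hulls -/
def Mlt (i : I) : Set T := ⋃ j ∈ Iio i, d.Hs a j

/-- its closure -/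
def Clt (i : I) : Set T := closure (d.Mlt a i)

/-- the points which are new at some stage -/
def R : Set T := {x | ∃ i, x ∈ d.C a i ∧ x ∉ d.Clt a i}

/-- the closure of the whole hull -/
def Y : Set T := closure (⋃ i, d.Hs a i)

/-- the old points -/
def E : Set T := d.Y a \ d.R a

theorem Hs_mono {i j : I} (h : i ≤ j) : d.Hs a i ⊆ d.Hs a j :=
  d.hull_mono (image_mono (Iic_subset_Iic.2 h))

theorem C_mono {i j : I} (h : i ≤ j) : d.C a i ⊆ d.C a j := closure_mono (d.Hs_mono a h)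

theorem Hs_subset_Mlt {i j : I} (h : i < j) : d.Hs a i ⊆ d.Mlt a j :=
  subset_biUnion_of_mem (u := fun j => d.Hs a j) h

/-- the hull of the whole range -/
theorem hull_range : d.Hull (range a) = ⋃ i, d.Hs a i := by
  apply Subset.antisymm
  · intro x hx
    obtain ⟨F, hF, hFa, hxF⟩ := d.hull_finitary hx
    rcases F.eq_empty_or_nonempty with hF0 | hF0
    · rw [hF0, d.hull_empty] at hxF
      exact absurd hxF (notMem_empty x)
    · have h1 : ∃ i, F ⊆ a '' Iic i := by
        -- choose preimages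
        have h2 : ∀ y ∈ F, ∃ i, a i = y := fun y hy => hFa hy
        obtain ⟨y₀, hy₀⟩ := hF0
        obtain ⟨i₀, -⟩ := h2 y₀ hy₀
        have : Nonempty I := ⟨i₀⟩
        choose! g hg using h2
        obtain ⟨i, hi⟩ := (hF.image g).bddAbove
        exact ⟨i, fun y hy => ⟨g y, hi ⟨y, hy, rfl⟩, hg y hy⟩⟩
      obtain ⟨i, hi⟩ := h1
      exact mem_iUnion.2 ⟨i, d.hull_mono hi hxF⟩
  · refine iUnion_subset fun i => d.hull_mono ?_
    exact image_subset_range a _

/-- a piece whose base set has an old centre and which contains a limit of stage `b` lies in the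
closure of stage `b` -/
theorem piece_subset {b : I} {c : T} (hc : c ∈ d.Hs a b) {m n k : ℕ} {A : Set T}
    (hA : A ∈ d.D c m n k) {x : T} (hxA : x ∈ A) (hx : x ∈ d.C a b) : A ⊆ d.C a b := by
  obtain ⟨j, hj⟩ := d.Q_cover c m n k A hA x hxA
  obtain ⟨p, hp, hpx⟩ := Metric.mem_closure_iff.1 hx (1 / ((j : ℝ) + 1)) (by positivity)
  refine (hj p (by rw [dist_comm]; exact hpx)).trans (closure_mono ?_)
  exact d.Q_subset_hull hc hp _

/-- **no old boundary**: the boundary of a base set with centre of stage `b` meets `E` only in the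
closure of stage `b` -/
theorem no_old_boundary {b : I} {c : T} (hc : c ∈ d.Hs a b) {m n : ℕ} {z : T}
    (hz : z ∈ frontier (d.W c m n)) (hzE : z ∈ d.E a) : z ∈ d.C a b := by
  rw [d.fr] at hz
  obtain ⟨k, A, hA, hzA⟩ := mem_iUnion.1 hz
  obtain ⟨j, hj⟩ := d.Q_cover c m n k A hA z hzA
  -- a point of a later stage near `z` puts `z` into the closure of this stage
  have key : ∀ b' : I, ∀ p ∈ d.Hs a b', dist z p < 1 / ((j : ℝ) + 1) → z ∈ d.C a (max b b') := by
    intro b' p hp hd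
    have h1 := hj p (by rw [dist_comm]; exact hd)
    exact closure_mono (d.Q_subset_hull (d.Hs_mono a (le_max_left b b') hc)
      (d.Hs_mono a (le_max_right b b') hp) _) (h1 hzA)
  have hj0 : (0 : ℝ) < 1 / ((j : ℝ) + 1) := by positivity
  -- `z` lies in some stage
  obtain ⟨i, hi⟩ : ∃ i, z ∈ d.C a i := by
    obtain ⟨p, hp, hd⟩ := Metric.mem_closure_iff.1 hzE.1 _ hj0
    obtain ⟨b', hb'⟩ := mem_iUnion.1 hp
    exact ⟨_, key b' p hb' hd⟩
  -- the first stage
  have hne : {i | z ∈ d.C a i}.Nonempty := ⟨i, hi⟩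
  set i₀ := WellFounded.min (wellFounded_lt (α := I)) {i | z ∈ d.C a i} hne with hi₀
  have hi₀m : z ∈ d.C a i₀ := WellFounded.min_mem (wellFounded_lt (α := I)) _ hne
  by_contra hzb
  have hlt : b < i₀ := by
    by_contra hle
    exact hzb (d.C_mono a (not_lt.1 hle) hi₀m)
  have hzR : z ∈ d.Clt a i₀ := by
    by_contra h
    exact hzE.2 ⟨i₀, hi₀m, h⟩
  obtain ⟨p, hp, hd⟩ := Metric.mem_closure_iff.1 hzR _ hj0
  obtain ⟨b', hb', hpb'⟩ := mem_iUnion₂.1 hp
  have h1 := key b' p hpb' hd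
  exact WellFounded.not_lt_min (wellFounded_lt (α := I)) {i | z ∈ d.C a i} h1
    (max_lt hlt hb')

/-- the enlarged base sets -/
theorem enlarge {b : I} (hb : ∀ z ∈ d.C a b, Cln (d.E a) z) {c : T} (hc : c ∈ d.Hs a b) {m n : ℕ}
    {x : T} {ρ ε : ℝ} (hx : d.W c m n ⊆ ball x ρ) (hε : 0 < ε) :
    ∃ V' : Set T, IsOpen V' ∧ d.W c m n ⊆ V' ∧ V' ⊆ ball x (ρ + ε) ∧
      frontier V' ∩ d.E a = ∅ := by
  refine select (d.W_open c m n) (d.fr c m n) (d.disc c m n) (d.menger c m n) ?_ hx hε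
  intro z hz hzE
  have h1 := d.no_old_boundary a hc hz hzE
  rw [d.fr] at hz
  obtain ⟨k, A, hA, hzA⟩ := mem_iUnion.1 hz
  exact ⟨k, A, hA, hzA, fun z' hz' => hb z' (d.piece_subset a hc hA hzA h1 hz')⟩

/-- the base step used twice: a point in the closure of old stages -/
theorem cln_of_old {x : T} {S : Set I} (hS : ∀ b ∈ S, ∀ z ∈ d.C a b, Cln (d.E a) z)
    (hx : x ∈ closure (⋃ b ∈ S, d.Hs a b)) : Cln (d.E a) x := by
  intro ε hε
  obtain ⟨n, hn⟩ := exists_nat_one_div_lt (show (0 : ℝ) < ε / 4 by positivity)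
  obtain ⟨m, hm⟩ := d.base x n
  obtain ⟨p, hp, hd⟩ := Metric.mem_closure_iff.1 hx (1 / ((m : ℝ) + 1)) (by positivity)
  obtain ⟨b, hb, hpb⟩ := mem_iUnion₂.1 hp
  obtain ⟨h1, h2⟩ := hm p (by rw [dist_comm]; exact hd)
  obtain ⟨V', h3, h4, h5, h6⟩ := d.enlarge a (hS b hb) hpb h2 (show (0 : ℝ) < ε / 2 by positivity)
  refine ⟨V', h3, h4 h1, h5.trans (ball_subset_ball ?_), h6⟩
  have h7 : 2 / ((n : ℝ) + 1) = 2 * (1 / ((n : ℝ) + 1)) := by ring
  rw [h7]
  linarith

theorem cln_all (i : I) : ∀ x ∈ d.C a i, Cln (d.E a) x := by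
  induction i using WellFoundedLT.induction with
  | ind i ih =>
    intro x hx
    by_cases hxo : x ∈ d.Clt a i
    · exact d.cln_of_old a (S := Iio i) (fun b hb => ih b hb) hxo
    · intro ε hε
      obtain ⟨δ, hδ, hδC⟩ := Metric.isOpen_iff.1
        (isClosed_closure (s := d.Mlt a i)).isOpen_compl x hxo
      obtain ⟨n, hn⟩ := exists_nat_one_div_lt (show (0 : ℝ) < min δ ε / 4 by positivity)
      obtain ⟨m, hm⟩ := d.base x n
      obtain ⟨p, hp, hd⟩ := Metric.mem_closure_iff.1 hx (1 / ((m : ℝ) + 1)) (by positivity)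
      obtain ⟨h1, h2⟩ := hm p (by rw [dist_comm]; exact hd)
      have h7 : 2 / ((n : ℝ) + 1) = 2 * (1 / ((n : ℝ) + 1)) := by ring
      have hmin1 := min_le_left δ ε
      have hmin2 := min_le_right δ ε
      have h8 : 2 / ((n : ℝ) + 1) < min δ ε := by
        rw [h7]
        have : 0 < min δ ε := by positivity
        linarith
      refine ⟨d.W p m n, d.W_open p m n, h1, h2.trans (ball_subset_ball (by linarith)), ?_⟩
      rw [eq_empty_iff_forall_notMem]
      rintro z ⟨hz, hzE⟩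
      have h3 := d.no_old_boundary a hp hz hzE
      have h4 : z ∈ closedBall x (2 / ((n : ℝ) + 1)) :=
        ((closure_mono h2).trans closure_ball_subset_closedBall) (frontier_subset_closure hz)
      rw [mem_closedBall] at h4
      have h5 : z ∉ d.Clt a i := hδC (by rw [mem_ball]; linarith)
      exact hzE.2 ⟨i, h3, h5⟩

theorem indZero_E : IndZero (d.E a) := by
  intro x hx U hU hxU
  have hc : Cln (d.E a) x := by
    refine d.cln_of_old a (S := univ) (fun b _ => d.cln_all a b) ?_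
    have := hx.1
    simp only [mem_univ, iUnion_true]
    exact this
  obtain ⟨ε, hε, hεU⟩ := Metric.isOpen_iff.1 hU x hxU
  obtain ⟨W, h1, h2, h3, h4⟩ := hc ε hε
  refine ⟨W, h1, h2, fun y hy => hεU (h3 hy.1), ?_⟩
  rintro y ⟨hy1, hy2⟩
  by_contra hyW
  have h5 : y ∈ frontier W := by
    rw [h1.frontier_eq]
    exact ⟨closure_mono inter_subset_left hy1, hyW⟩
  have h6 : y ∈ frontier W ∩ d.E a := ⟨h5, hy2⟩
  rw [h4] at h6
  exact h6

/-- the new points -/
theorem sigmaZero_R (h : ∀ i, SigmaZero (d.C a i)) : SigmaZero (d.R a) := by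
  choose Z hZ hZ0 using h
  let P : ℕ → ℕ → I → Set T := fun n l i =>
    {x | x ∈ Z i l ∧ ∀ y ∈ d.Mlt a i, 1 / ((n : ℝ) + 1) ≤ dist x y}
  have hP : ∀ n l, IndZero (⋃ i, P n l i) := by
    intro n l
    refine indZero_separated (δ := 1 / ((n : ℝ) + 1)) (by positivity)
      (fun i => (hZ0 i l).mono fun x hx => hx.1) ?_
    -- separation
    have hlt : ∀ i j, i < j → ∀ x ∈ P n l i, ∀ y ∈ P n l j, 1 / ((n : ℝ) + 1) ≤ dist y x := by
      intro i j hij x hx y hy
      have hxC : x ∈ d.C a i := by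
        rw [← hZ i]
        exact mem_iUnion.2 ⟨l, hx.1⟩
      by_contra hcon
      rw [not_le] at hcon
      obtain ⟨q, hq, hd⟩ := Metric.mem_closure_iff.1 hxC (1 / ((n : ℝ) + 1) - dist y x)
        (by linarith)
      have h1 := hy.2 q (d.Hs_subset_Mlt a hij hq)
      have h2 : dist y q ≤ dist y x + dist x q := dist_triangle _ _ _
      linarith
    intro i j hij x hx y hy
    rcases lt_or_gt_of_ne hij with h1 | h1
    · rw [dist_comm]
      exact hlt i j h1 x hx y hy
    · exact hlt j i h1 y hy x hx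
  have hall : SigmaZero (⋃ n, ⋃ l, ⋃ i, P n l i) :=
    SigmaZero.iUnion fun n => SigmaZero.iUnion fun l => SigmaZero.of_indZero (hP n l)
  refine hall.mono ?_
  rintro x ⟨i, hx1, hx2⟩
  obtain ⟨δ, hδ, hδC⟩ := Metric.isOpen_iff.1
    (isClosed_closure (s := d.Mlt a i)).isOpen_compl x hx2
  obtain ⟨n, hn⟩ := exists_nat_one_div_lt hδ
  rw [← hZ i] at hx1
  obtain ⟨l, hl⟩ := mem_iUnion.1 hx1
  refine mem_iUnion.2 ⟨n, mem_iUnion.2 ⟨l, mem_iUnion.2 ⟨i, hl, fun y hy => ?_⟩⟩⟩
  by_contra hcon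
  rw [not_le] at hcon
  exact hδC (show y ∈ ball x δ by rw [mem_ball, dist_comm]; linarith) (subset_closure hy)

/-- **the inner induction** -/
theorem sigmaZero_closure_hull (h : ∀ i, SigmaZero (closure (d.Hull (a '' Iic i)))) :
    SigmaZero (closure (d.Hull (range a))) := by
  rw [d.hull_range a]
  refine ((SigmaZero.of_indZero (d.indZero_E a)).union (d.sigmaZero_R a h)).mono ?_
  intro x hx
  by_cases hR : x ∈ d.R a
  · exact Or.inr hR
  · exact Or.inl ⟨hx, hR⟩

end Data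

end Pool.Agent.RM69
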