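import Pool.Agent.RM69.Inner

/-!
# RM69 : the outer induction on cardinals, transfer to subspaces, separable subspaces
-/

set_option autoImplicit false

namespace Pool.Agent.RM69

open Set Topology Metric Cardinal

universe u v

theorem Data.sigmaZero_card {T : Type u} [MetricSpace T] (d : Data T)
    (hsep : ∀ S : Set T, S.Countable → SigmaZero (closure S)) (κ : Cardinal.{u}) :
    ∀ A : Set T, #A = κ → SigmaZero (closure (d.Hull A)) := by
  induction κ using WellFoundedLT.induction with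
  | ind κ ih =>
    intro A hA
    rcases le_or_gt κ ℵ₀ with hκ | hκ
    · refine hsep _ (d.hull_countable ?_)
      rw [← hA] at hκ
      exact Cardinal.le_aleph0_iff_set_countable.1 hκ
    · -- enumerate `A` by the ordinal of `κ`
      have h1 : #(κ.ord.ToType) = #A := by rw [Cardinal.mk_ord_toType, hA]
      obtain ⟨e⟩ := Cardinal.eq.1 h1
      let a : κ.ord.ToType → T := fun i => (e i : T)
      have hrange : range a = A := by
        ext x
        constructor
        · rintro ⟨i, rfl⟩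
          exact (e i).2
        · intro hx
          exact ⟨e.symm ⟨x, hx⟩, by simp [a]⟩
      rw [← hrange]
      refine d.sigmaZero_closure_hull a fun i => ?_
      refine ih #(a '' Iic i) ?_ _ rfl
      refine (Cardinal.mk_image_le).trans_lt ?_
      have h2 : (Iic i : Set κ.ord.ToType) = insert i (Iio i) := by
        ext j
        simp only [mem_Iic, mem_insert_iff, mem_Iio]
        exact le_iff_eq_or_lt
      rw [h2]
      refine (Cardinal.mk_insert_le).trans_lt ?_
      exact Cardinal.add_lt_of_lt hκ.le (Cardinal.mk_Iio_toType_ord_lt i)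
        (Cardinal.one_lt_aleph0.trans hκ)

/-- a rim-Menger metric space all of whose separable closed subspaces are sigma-zero is
sigma-zero -/
theorem sigmaZero_of_rimMenger {T : Type u} [MetricSpace T] (hT : RimMenger T)
    (hsep : ∀ S : Set T, S.Countable → SigmaZero (closure S)) : SigmaZero (univ : Set T) := by
  obtain ⟨d⟩ := exists_data hT
  refine (d.sigmaZero_card hsep _ univ rfl).mono ?_
  exact (d.subset_hull univ).trans subset_closure

/-! ### transfer -/

theorem IndZero.image_val {X : Type u} [TopologicalSpace X] {M : Set X} {Z : Set M}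
    (h : IndZero Z) : IndZero (Subtype.val '' Z : Set X) := by
  rintro _ ⟨t, ht, rfl⟩ U hU hxU
  obtain ⟨V, hV, htV, h1, h2⟩ := h t ht (Subtype.val ⁻¹' U) (hU.preimage continuous_subtype_val) hxU
  obtain ⟨V₀, hV₀, rfl⟩ := isOpen_induced_iff.1 hV
  refine ⟨V₀, hV₀, htV, ?_, ?_⟩
  · rintro _ ⟨hs, s, hsZ, rfl⟩
    exact h1 ⟨hs, hsZ⟩
  · rintro _ ⟨hs, s, hsZ, rfl⟩
    refine h2 ⟨?_, hsZ⟩
    rw [closure_subtype]
    refine closure_mono ?_ hs
    rintro _ ⟨hr, r, hrZ, rfl⟩
    exact ⟨r, ⟨hr, hrZ⟩, rfl⟩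

theorem IndZero.preimage_val {X : Type u} [TopologicalSpace X] {M : Set X} {B : Set X}
    (h : IndZero B) : IndZero (Subtype.val ⁻¹' B : Set M) := by
  intro t ht U hU htU
  obtain ⟨U₀, hU₀, rfl⟩ := isOpen_induced_iff.1 hU
  obtain ⟨V, hV, htV, h1, h2⟩ := h t ht U₀ hU₀ htU
  refine ⟨Subtype.val ⁻¹' V, hV.preimage continuous_subtype_val, htV, ?_, ?_⟩
  · rintro s ⟨hs, hsB⟩
    exact h1 ⟨hs, hsB⟩
  · rintro s ⟨hs, hsB⟩
    refine h2 ⟨?_, hsB⟩
    rw [closure_subtype] at hs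
    refine closure_mono ?_ hs
    rintro _ ⟨r, ⟨hr, hrB⟩, rfl⟩
    exact ⟨hr, hrB⟩

theorem SigmaZero.image_val {X : Type u} [TopologicalSpace X] {M : Set X} {Z : Set M}
    (h : SigmaZero Z) : SigmaZero (Subtype.val '' Z : Set X) := by
  obtain ⟨Y, hY, h0⟩ := h
  refine ⟨fun i => Subtype.val '' Y i, ?_, fun i => (h0 i).image_val⟩
  rw [← image_iUnion, hY]

theorem SigmaZero.preimage_val {X : Type u} [TopologicalSpace X] {M : Set X} {B : Set X}
    (h : SigmaZero B) : SigmaZero (Subtype.val ⁻¹' B : Set M) := by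
  obtain ⟨Y, hY, h0⟩ := h
  refine ⟨fun i => Subtype.val ⁻¹' Y i, ?_, fun i => (h0 i).preimage_val⟩
  rw [← preimage_iUnion, hY]

/-- a metric space which is a countable union of rim-Menger subspaces and whose separable
subspaces are sigma-zero is sigma-zero -/
theorem sigmaZero_of_cover {X : Type u} [MetricSpace X] (M : ℕ → Set X) (hM : (⋃ i, M i) = Set.univ)
    (hrim : ∀ i, RimMenger (M i))
    (hsep : ∀ S : Set X, S.Countable → SigmaZero (closure S)) : SigmaZero (univ : Set X) := by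
  have h1 : ∀ i, SigmaZero (M i) := by
    intro i
    have h2 : SigmaZero (univ : Set (M i)) := by
      refine sigmaZero_of_rimMenger (hrim i) fun S hS => ?_
      refine (SigmaZero.preimage_val (M := M i) (hsep _ (hS.image Subtype.val))).mono ?_
      intro t ht
      rw [closure_subtype] at ht
      exact ht
    have h3 := h2.image_val
    rw [image_univ, Subtype.range_coe] at h3
    exact h3
  have h2 := SigmaZero.iUnion h1
  rw [hM] at h2
  exact h2

/-! ### separable subspaces -/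

/-- one step of Hurewicz's argument for separable sets -/
theorem sep_step {X : Type u} [MetricSpace X] {S C : Set X} (hC : C.Countable)
    (hSC : S ⊆ closure C)
    (h : ∀ x ∈ S, ∀ U : Set X, IsOpen U → x ∈ U →
      ∃ V : Set X, IsOpen V ∧ x ∈ V ∧ V ∩ S ⊆ U ∧ SigmaZero ((closure (V ∩ S) ∩ S) \ V)) :
    SigmaZero S := by
  classical
  have hCc : Countable C := hC
  -- the countable base
  let B : C × ℕ → Set X := fun b => ball (b.1 : X) (1 / ((b.2 : ℝ) + 1))
  have hB : ∀ x ∈ S, ∀ U : Set X, IsOpen U → x ∈ U → ∃ b, x ∈ B b ∧ B b ⊆ U := by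
    intro x hx U hU hxU
    obtain ⟨δ, hδ, hδU⟩ := Metric.isOpen_iff.1 hU x hxU
    obtain ⟨n, hn⟩ := exists_nat_one_div_lt (half_pos hδ)
    obtain ⟨c, hc, hd⟩ := Metric.mem_closure_iff.1 (hSC hx) (1 / ((n : ℝ) + 1)) (by positivity)
    refine ⟨(⟨c, hc⟩, n), hd, fun y hy => hδU ?_⟩
    have hy' : dist y c < 1 / ((n : ℝ) + 1) := hy
    rw [mem_ball]
    calc dist y x ≤ dist y c + dist c x := dist_triangle _ _ _
      _ < 1 / ((n : ℝ) + 1) + 1 / ((n : ℝ) + 1) := by
          rw [dist_comm c x]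
          exact add_lt_add hy' hd
      _ ≤ δ := by linarith
  -- the chosen sets
  have hex : ∀ p : (C × ℕ) × (C × ℕ), ∃ V : Set X,
      SigmaZero ((closure (V ∩ S) ∩ S) \ V) ∧
      ((∃ V : Set X, IsOpen V ∧ B p.1 ∩ S ⊆ V ∧ V ∩ S ⊆ B p.2 ∧
        SigmaZero ((closure (V ∩ S) ∩ S) \ V)) →
        IsOpen V ∧ B p.1 ∩ S ⊆ V ∧ V ∩ S ⊆ B p.2) := by
    intro p
    by_cases hp : ∃ V : Set X, IsOpen V ∧ B p.1 ∩ S ⊆ V ∧ V ∩ S ⊆ B p.2 ∧
        SigmaZero ((closure (V ∩ S) ∩ S) \ V)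
    · obtain ⟨V, h1, h2, h3, h4⟩ := hp
      exact ⟨V, h4, fun _ => ⟨h1, h2, h3⟩⟩
    · refine ⟨∅, ?_, fun h' => absurd h' hp⟩
      rw [empty_inter, closure_empty, empty_inter, empty_sdiff]
      exact sigmaZero_empty
  choose V hV1 hV2 using hex
  set F : Set X := ⋃ p, (closure (V p ∩ S) ∩ S) \ V p with hF
  have hFs : SigmaZero F := SigmaZero.iUnion hV1
  have hR : IndZero (S \ F) := by
    intro x hx U hU hxU
    obtain ⟨b2, hx2, hb2⟩ := hB x hx.1 U hU hxU
    obtain ⟨V₀, h1, h2, h3, h4⟩ := h x hx.1 (B b2) isOpen_ball hx2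
    obtain ⟨b1, hx1, hb1⟩ := hB x hx.1 V₀ h1 h2
    obtain ⟨g1, g2, g3⟩ := hV2 (b1, b2) ⟨V₀, h1, fun y hy => hb1 hy.1, h3, h4⟩
    refine ⟨V (b1, b2), g1, g2 ⟨hx1, hx.1⟩, fun y hy => hb2 (g3 ⟨hy.1, hy.2.1⟩), ?_⟩
    rintro y ⟨hy1, hy2⟩
    by_contra hyV
    refine hy2.2 (mem_iUnion.2 ⟨(b1, b2), ⟨closure_mono ?_ hy1, hy2.1⟩, hyV⟩)
    rintro z ⟨hz1, hz2⟩
    exact ⟨hz1, hz2.1⟩
  refine ((SigmaZero.of_indZero hR).union hFs).mono ?_
  intro x hx
  by_cases hxF : x ∈ F
  · exact Or.inr hxF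
  · exact Or.inl ⟨hx, hxF⟩

/-- if the small transfinite dimension of `X` exists then all separable subspaces of `X` are
sigma-zero -/
theorem separable_of_trind {X : Type u} [MetricSpace X]
    (htrind : ∃ α : Ordinal.{v}, ∀ P : Set X → Ordinal.{v} → Prop,
      (∀ (A : Set X) (α' : Ordinal.{v}),
        (∀ x ∈ A, ∀ U : Set X, IsOpen U → x ∈ U →
          ∃ V : Set X, IsOpen V ∧ x ∈ V ∧ V ∩ A ⊆ U ∧
            ((closure (V ∩ A) ∩ A) \ V = ∅ ∨
              ∃ β < α', P ((closure (V ∩ A) ∩ A) \ V) β)) → P A α') →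
      P Set.univ α) (S : Set X) (hS : S.Countable) : SigmaZero (closure S) := by
  obtain ⟨α, hα⟩ := htrind
  have key := hα (fun A _ => SigmaZero (A ∩ closure S)) (by
    intro A α' hA
    refine sep_step hS inter_subset_right ?_
    intro x hx U hU hxU
    obtain ⟨V, hV, hxV, h1, h2⟩ := hA x hx.1 U hU hxU
    refine ⟨V, hV, hxV, fun y hy => h1 ⟨hy.1, hy.2.1⟩, ?_⟩
    have hsub : (closure (V ∩ (A ∩ closure S)) ∩ (A ∩ closure S)) \ V ⊆
        ((closure (V ∩ A) ∩ A) \ V) ∩ closure S := by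
      rintro y ⟨⟨hy1, hy2⟩, hy3⟩
      refine ⟨⟨⟨closure_mono ?_ hy1, hy2.1⟩, hy3⟩, hy2.2⟩
      rintro z ⟨hz1, hz2⟩
      exact ⟨hz1, hz2.1⟩
    rcases h2 with h2 | ⟨β, -, h2⟩
    · rw [h2, empty_inter] at hsub
      exact sigmaZero_empty.mono hsub
    · exact h2.mono hsub)
  rw [univ_inter] at key
  exact key

end Pool.Agent.RM69
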