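import Pool.Agent.RM69.Hull

/-!
# RM69 : the selection lemma

A set with sigma-discretely Menger frontier can be enlarged slightly so that its frontier misses
`E`, if the points of the pieces of its frontier which meet `E` have small neighbourhoods with this
property.
-/

set_option autoImplicit false

namespace Pool.Agent.RM69

open Set Topology Metric

universe u

variable {T : Type u} [MetricSpace T]

/-- `z` has arbitrarily small open neighbourhoods whose frontiers miss `E` -/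
def Cln (E : Set T) (z : T) : Prop :=
  ∀ ε : ℝ, 0 < ε → ∃ W : Set T, IsOpen W ∧ z ∈ W ∧ W ⊆ ball z ε ∧ frontier W ∩ E = ∅

/-- the small sets used at a point of the piece `A` of `𝒟` -/
def Small (E : Set T) (𝒟 : Set (Set T)) (A : Set T) (ε : ℝ) (W : Set T) : Prop :=
  IsOpen W ∧ frontier W ∩ E = ∅ ∧ ∃ z ∈ A, ∃ r : ℝ, 0 < r ∧ r ≤ ε ∧ W ⊆ ball z r ∧
    ∀ B ∈ 𝒟, B ≠ A → ∀ y ∈ B, 3 * r ≤ dist z y

theorem exists_small {E : Set T} {𝒟 : Set (Set T)} (hd : IsDiscreteFamily 𝒟) {A : Set T}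
    (hA : A ∈ 𝒟) {ε : ℝ} (hε : 0 < ε) {z : T} (hz : z ∈ A) (hc : Cln E z) :
    ∃ W, Small E 𝒟 A ε W ∧ z ∈ W := by
  obtain ⟨O, hO, hzO, hsub⟩ := hd z
  obtain ⟨δ, hδ, hδO⟩ := Metric.isOpen_iff.1 hO z hzO
  have hr : 0 < min ε (δ / 3) := by positivity
  obtain ⟨W, h1, h2, h3, h4⟩ := hc _ hr
  refine ⟨W, ⟨h1, h4, z, hz, _, hr, min_le_left _ _, h3, ?_⟩, h2⟩
  intro B hB hBA y hy
  by_contra hlt
  rw [not_le] at hlt
  have h5 : 3 * min ε (δ / 3) ≤ δ := by
    have := min_le_right ε (δ / 3)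
    linarith
  have h6 : y ∈ O := hδO (by rw [mem_ball, dist_comm]; linarith)
  exact hBA (hsub ⟨hB, y, hy, h6⟩ ⟨hA, z, hz, hzO⟩)

/-- the selection for one piece -/
theorem exists_cover {E : Set T} {𝒟 : Set (Set T)} (hd : IsDiscreteFamily 𝒟) {A : Set T}
    (hA : A ∈ 𝒟) (hM : IsMenger A) (hc : ∀ z ∈ A, Cln E z) {ε : ℕ → ℝ} (hε : ∀ i, 0 < ε i) :
    ∃ 𝒱 : ℕ → Set (Set T), (∀ i, (𝒱 i).Finite ∧ ∀ W ∈ 𝒱 i, Small E 𝒟 A (ε i) W) ∧
      A ⊆ ⋃ i, ⋃₀ 𝒱 i := by
  obtain ⟨𝒱, h1, h2⟩ := hM (fun i => {W | Small E 𝒟 A (ε i) W}) (fun i W hW => hW.1) (by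
    intro i z hz
    obtain ⟨W, hW, hzW⟩ := exists_small hd hA (hε i) hz (hc z hz)
    exact ⟨W, hW, hzW⟩)
  exact ⟨𝒱, fun i => ⟨(h1 i).2, fun W hW => (h1 i).1 hW⟩, h2⟩

/-- **the selection lemma** -/
theorem select {E V : Set T} (hV : IsOpen V) {𝒟 : ℕ → Set (Set T)}
    (hfr : frontier V = ⋃ k, ⋃₀ 𝒟 k) (hd : ∀ k, IsDiscreteFamily (𝒟 k))
    (hM : ∀ k, ∀ A ∈ 𝒟 k, IsMenger A)
    (hgood : ∀ z ∈ frontier V, z ∈ E → ∃ k, ∃ A ∈ 𝒟 k, z ∈ A ∧ ∀ z' ∈ A, Cln E z')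
    {x : T} {ρ ε : ℝ} (hx : V ⊆ ball x ρ) (hε : 0 < ε) :
    ∃ V' : Set T, IsOpen V' ∧ V ⊆ V' ∧ V' ⊆ ball x (ρ + ε) ∧ frontier V' ∩ E = ∅ := by
  classical
  -- the radii
  let η : ℕ → ℕ → ℝ := fun k i => min ε (1 / ((k : ℝ) + i + 1))
  have hη : ∀ k i, 0 < η k i := fun k i => by positivity
  -- the families
  have hex : ∀ (k : ℕ) (A : Set T), ∃ 𝒱 : ℕ → Set (Set T),
      (∀ i, (𝒱 i).Finite ∧ ∀ W ∈ 𝒱 i, A ∈ 𝒟 k ∧ Small E (𝒟 k) A (η k i) W) ∧
      ((A ∈ 𝒟 k ∧ ∀ z' ∈ A, Cln E z') → A ⊆ ⋃ i, ⋃₀ 𝒱 i) := by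
    intro k A
    by_cases h : A ∈ 𝒟 k ∧ ∀ z' ∈ A, Cln E z'
    · obtain ⟨𝒱, h1, h2⟩ := exists_cover (hd k) h.1 (hM k A h.1) h.2 (hη k)
      exact ⟨𝒱, fun i => ⟨(h1 i).1, fun W hW => ⟨h.1, (h1 i).2 W hW⟩⟩, fun _ => h2⟩
    · exact ⟨fun _ => ∅, fun i => ⟨finite_empty, fun W hW => absurd hW (notMem_empty W)⟩,
        fun h' => absurd h' h⟩
  choose 𝒱 h𝒱1 h𝒱2 using hex
  let 𝒲 : Set (Set T) := {W | ∃ k A i, W ∈ 𝒱 k A i}
  have hW : ∀ W ∈ 𝒲, IsOpen W ∧ frontier W ∩ E = ∅ := by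
    rintro W ⟨k, A, i, hW⟩
    have := ((h𝒱1 k A i).2 W hW).2
    exact ⟨this.1, this.2.1⟩
  have hclV : closure V ⊆ closedBall x ρ := (closure_mono hx).trans closure_ball_subset_closedBall
  have hopen : IsOpen (V ∪ ⋃₀ 𝒲) := hV.union (isOpen_sUnion fun W h => (hW W h).1)
  refine ⟨V ∪ ⋃₀ 𝒲, hopen, subset_union_left, ?_, ?_⟩
  · rintro y (hy | ⟨W, ⟨k, A, i, hWm⟩, hyW⟩)
    · have := hx hy
      rw [mem_ball] at this ⊢
      linarith
    · obtain ⟨hAk, -, -, z, hzA, r, -, hr, hWr, -⟩ := (h𝒱1 k A i).2 W hWm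
      have hz : z ∈ frontier V := by
        rw [hfr]
        exact mem_iUnion.2 ⟨k, A, hAk, hzA⟩
      have h1 := hclV (frontier_subset_closure hz)
      have h2 := hWr hyW
      rw [mem_closedBall] at h1
      rw [mem_ball] at h2 ⊢
      have h3 : r ≤ ε := hr.trans (min_le_left _ _)
      calc dist y x ≤ dist y z + dist z x := dist_triangle _ _ _
        _ < r + ρ := add_lt_add_of_lt_of_le h2 h1
        _ ≤ ρ + ε := by linarith
  · rw [eq_empty_iff_forall_notMem]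
    rintro v ⟨hv, hvE⟩
    rw [hopen.frontier_eq] at hv
    obtain ⟨hvc, hvn⟩ := hv
    by_cases hvV : v ∈ closure V
    · have hvf : v ∈ frontier V := by
        rw [hV.frontier_eq]
        exact ⟨hvV, fun h => hvn (Or.inl h)⟩
      obtain ⟨k, A, hA, hvA, hc⟩ := hgood v hvf hvE
      obtain ⟨i, W, hWi, hvW⟩ := mem_iUnion.1 (h𝒱2 k A ⟨hA, hc⟩ hvA)
      exact hvn (Or.inr ⟨W, ⟨k, A, i, hWi⟩, hvW⟩)
    · -- a ball around `v` missing the closure of `V`
      obtain ⟨δ, hδ, hδV⟩ := Metric.isOpen_iff.1 isClosed_closure.isOpen_compl v hvV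
      set τ : ℝ := δ / 3 with hτ
      have hτ0 : 0 < τ := by positivity
      -- members meeting the small ball
      have hmeet : ∀ k A i W, W ∈ 𝒱 k A i → (W ∩ ball v τ).Nonempty →
          ∃ z ∈ A, ∃ r : ℝ, A ∈ 𝒟 k ∧ 2 * τ < r ∧ r ≤ 1 / ((k : ℝ) + i + 1) ∧ dist v z < τ + r ∧
            ∀ B ∈ 𝒟 k, B ≠ A → ∀ y ∈ B, 3 * r ≤ dist z y := by
        rintro k A i W hWm ⟨y, hyW, hyv⟩
        obtain ⟨hAk, -, -, z, hzA, r, hr0, hr, hWr, hsep⟩ := (h𝒱1 k A i).2 W hWm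
        have h2 := hWr hyW
        rw [mem_ball] at hyv h2
        have h3 : dist v z < τ + r := by
          calc dist v z ≤ dist v y + dist y z := dist_triangle _ _ _
            _ < τ + r := by rw [dist_comm v y]; exact add_lt_add hyv h2
        have hz : z ∈ closure V := by
          apply frontier_subset_closure
          rw [hfr]
          exact mem_iUnion.2 ⟨k, A, hAk, hzA⟩
        have h4 : δ ≤ dist v z := by
          by_contra hlt
          rw [not_le] at hlt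
          exact hδV (show z ∈ ball v δ by rw [mem_ball, dist_comm]; exact hlt) hz
        exact ⟨z, hzA, r, hAk, by linarith, hr.trans (min_le_right _ _), h3, hsep⟩
      have hfin : {W ∈ 𝒲 | (W ∩ ball v τ).Nonempty}.Finite := by
        obtain ⟨N, hN⟩ := exists_nat_gt (1 / (2 * τ))
        -- the pieces
        let 𝒮 : ℕ → Set (Set T) := fun k => {A | ∃ i W, W ∈ 𝒱 k A i ∧ (W ∩ ball v τ).Nonempty}
        have h𝒮 : ∀ k, (𝒮 k).Subsingleton := by
          rintro k A ⟨i, W, hW1, hW2⟩ B ⟨i', W', hW1', hW2'⟩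
          by_contra hne
          obtain ⟨z, hz, r, hA, h1, -, h3, h4⟩ := hmeet k A i W hW1 hW2
          obtain ⟨z', hz', r', hB, h1', -, h3', h4'⟩ := hmeet k B i' W' hW1' hW2'
          have h5 := h4 B hB (fun h => hne h.symm) z' hz'
          have h6 := h4' A hA hne z hz
          rw [dist_comm z' z] at h6
          have h7 : dist z z' ≤ dist v z + dist v z' := by
            rw [dist_comm v z]
            exact dist_triangle _ _ _
          linarith
        have hsub : {W ∈ 𝒲 | (W ∩ ball v τ).Nonempty} ⊆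
            ⋃ k ∈ Finset.range N, ⋃ i ∈ Finset.range N, ⋃ A ∈ 𝒮 k, 𝒱 k A i := by
          rintro W ⟨⟨k, A, i, hWm⟩, hWv⟩
          obtain ⟨z, hz, r, hA, h1, h2, -, -⟩ := hmeet k A i W hWm hWv
          have h3 : (k : ℝ) + i + 1 < N := by
            have h4 : 2 * τ < 1 / ((k : ℝ) + i + 1) := h1.trans_le h2
            have h5 : (k : ℝ) + i + 1 < 1 / (2 * τ) := by
              rw [lt_div_iff₀ (by positivity)] at h4 ⊢
              linarith
            exact h5.trans hN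
          have hk : k < N := by
            have : (0 : ℝ) ≤ i := Nat.cast_nonneg i
            have h6 : (k : ℝ) < N := by linarith
            exact_mod_cast h6
          have hi : i < N := by
            have : (0 : ℝ) ≤ k := Nat.cast_nonneg k
            have h6 : (i : ℝ) < N := by linarith
            exact_mod_cast h6
          simp only [mem_iUnion, Finset.mem_range]
          exact ⟨k, hk, i, hi, A, ⟨i, W, hWm, hWv⟩, hWm⟩
        refine Finite.subset ?_ hsub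
        refine (Finset.finite_toSet _).biUnion fun k _ => (Finset.finite_toSet _).biUnion
          fun i _ => ?_
        exact (h𝒮 k).finite.biUnion fun A _ => (h𝒱1 k A i).1
      -- `v` is in the closure of one of them
      have hvcl : v ∈ closure (⋃₀ {W ∈ 𝒲 | (W ∩ ball v τ).Nonempty}) := by
        rw [_root_.mem_closure_iff]
        intro O hO hvO
        obtain ⟨y, ⟨hyO, hyv⟩, hy⟩ := _root_.mem_closure_iff.1 hvc (O ∩ ball v τ)
          (hO.inter isOpen_ball) ⟨hvO, mem_ball_self hτ0⟩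
        rcases hy with hy | ⟨W, hWm, hyW⟩
        · exact absurd (subset_closure hy) (hδV (by
            rw [mem_ball] at hyv ⊢
            linarith))
        · exact ⟨y, hyO, W, ⟨hWm, y, hyW, hyv⟩, hyW⟩
      rw [hfin.closure_sUnion] at hvcl
      obtain ⟨W, ⟨hWm, -⟩, hvW⟩ := mem_iUnion₂.1 hvcl
      have h1 : v ∈ frontier W := by
        rw [(hW W hWm).1.frontier_eq]
        exact ⟨hvW, fun h => hvn (Or.inr ⟨W, hWm, h⟩)⟩
      have h2 : v ∈ frontier W ∩ E := ⟨h1, hvE⟩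
      rw [(hW W hWm).2] at h2
      exact h2

end Pool.Agent.RM69
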